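import Pool.Agent.Q138.PS.UY
import Pool.Agent.Results.MP_03ef3d_ag.FanoDoubleCovers

/-!
# The Hasse principle for the quadratic twists of Fano double covers by the integers near `± α P(n)`

Let `F(x; u, v) = A(x) u² + B(x) u v + D(x) v²` be a form of bidegree `(2 d, 2)` with integral coefficients such that the
divisor `F = 0` in `ℙᵐ × ℙ¹` is smooth, and let `X_a : w² = a F(x; u, v)` (Fano for `d ≤ m`). Let `q ≥ 2`. Outside ONE set of
real numbers of Hausdorff dimension at most `q / (q + 1 / (q 2 ^ (q - 1)))` (that is `8 / 9` for `q = 2`) every `α > 0` has the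
following property. There is `η > 0` such that for all these `F`: for all `L` and `ε > 0`, all large `N` and ALL integral
polynomials `P` of degree `q` with positive leading coefficient and coefficients of size at most `N ^ η`, for all but `ε N` of
the `n ≤ N`, for EVERY squarefree integer `a` with `||a| - ⌊α P(n)⌋| ≤ L` for which `X_a` has points everywhere locally, `X_a` has
a rational point; and there is `c > 0` such that for at least `c N` of the `n ≤ N` one of the numbers `a = ± ⌊α P(n)⌋` is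
squarefree and `X_a` has a rational point.
-/

set_option autoImplicit false

namespace Pool.Agent.Results.MP_03ef3d_ag.TwistsAlongRealMultiples

open Finset Filter Topology
open Pool.Agent.Q138.PS
open Pool.Agent.Results.MP_03ef3d_ag.FanoDoubleCovers (SmoothBranch HasPoint)

variable {m : ℕ}

/-- `a` is squarefree, `X_a` has points everywhere locally, but no rational point -/
def Fails (A B D : MvPolynomial (Fin (m + 1)) ℤ) (a : ℤ) : Prop :=
  Squarefree a ∧ HasPoint A B D a ℝ ∧ (∀ p : Nat.Primes, HasPoint A B D a ℚ_[(p : ℕ)]) ∧ ¬ HasPoint A B D a ℚ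

open Classical in
/-- the number of the `1 ≤ n ≤ N` such that `Fails` holds for some `a` with `||a| - ⌊α P(n)⌋| ≤ L` -/
noncomputable def failures (A B D : MvPolynomial (Fin (m + 1)) ℤ) (L : ℕ) (α : ℝ) (P : Polynomial ℤ) (N : ℕ) : ℕ :=
  ((Icc 1 N).filter fun n : ℕ => ∃ a : ℤ, |(|a| - (⌊α * ((P.eval (n : ℤ) : ℤ) : ℝ)⌋₊ : ℤ))| ≤ (L : ℤ) ∧
    Fails A B D a).card

open Classical in
/-- the number of the `1 ≤ n ≤ N` such that `X_a` has a rational point and `a` is squarefree, for `a = ⌊α P(n)⌋` or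
`a = -⌊α P(n)⌋` -/
noncomputable def soluble (A B D : MvPolynomial (Fin (m + 1)) ℤ) (α : ℝ) (P : Polynomial ℤ) (N : ℕ) : ℕ :=
  ((Icc 1 N).filter fun n : ℕ => ∃ a : ℤ, |a| = (⌊α * ((P.eval (n : ℤ) : ℤ) : ℝ)⌋₊ : ℤ) ∧ Squarefree a ∧
    HasPoint A B D a ℚ).card

/-- `Fails` for `j` or `-j` -/
def Bad (A B D : MvPolynomial (Fin (m + 1)) ℤ) (j : ℕ) : Prop := ∃ a : ℤ, a.natAbs = j ∧ Fails A B D a

/-- a squarefree twist by `j` or `-j` with a rational point -/
def Sol (A B D : MvPolynomial (Fin (m + 1)) ℤ) (j : ℕ) : Prop := ∃ a : ℤ, a.natAbs = j ∧ Squarefree a ∧ HasPoint A B D a ℚ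

theorem failures_eq (A B D : MvPolynomial (Fin (m + 1)) ℤ) (L : ℕ) (α : ℝ) (P : Polynomial ℤ) (N : ℕ) :
    (failures A B D L α P N : ℝ) = cnP (nb (Bad A B D) L) α P N := by
  classical
  unfold failures cnP cn
  refine congrArg _ (congrArg _ ?_)
  ext n
  rw [mem_filter, mem_filter]
  refine and_congr_right fun _ => ?_
  constructor
  · rintro ⟨t, h2, h3⟩
    rw [abs_le, Int.abs_eq_natAbs t] at h2
    exact ⟨t.natAbs, ⟨t, rfl, h3⟩, by omega, by omega⟩
  · rintro ⟨j, ⟨t, h2, h3⟩, h4, h5⟩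
    refine ⟨t, ?_, h3⟩
    rw [abs_le, Int.abs_eq_natAbs t]
    omega

theorem soluble_eq (A B D : MvPolynomial (Fin (m + 1)) ℤ) (α : ℝ) (P : Polynomial ℤ) (N : ℕ) :
    (soluble A B D α P N : ℝ) = cnP (Sol A B D) α P N := by
  classical
  unfold soluble cnP cn
  refine congrArg _ (congrArg _ ?_)
  ext n
  rw [mem_filter, mem_filter]
  refine and_congr_right fun _ => exists_congr fun t => and_congr_left fun _ => ?_
  rw [Int.abs_eq_natAbs t]
  exact Nat.cast_inj

theorem fin_of {H : ℕ} {S : Set ℤ} (h : ∀ a ∈ S, |a| ≤ (H : ℤ)) : S.Finite := by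
  apply (Set.finite_Icc (-(H : ℤ)) H).subset
  intro a ha
  exact Set.mem_Icc.2 (abs_le.1 (h a ha))

theorem cn_image (S : Set ℤ) (X : ℕ → Prop) (Y : ℕ) (hX : ∀ j, X j → ∃ a ∈ S, a.natAbs = j) (hS : (S ∩ {a | |a| ≤ (Y : ℤ)}).Finite) :
    cn X Y ≤ ((S ∩ {a | |a| ≤ (Y : ℤ)}).ncard : ℝ) := by
  classical
  have h1 : (Icc 1 Y).filter X ⊆ hS.toFinset.image Int.natAbs := by
    intro j hj
    rw [mem_filter, mem_Icc] at hj
    obtain ⟨a, ha, haj⟩ := hX j hj.2
    refine mem_image.2 ⟨a, ?_, haj⟩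
    rw [Set.Finite.mem_toFinset]
    refine ⟨ha, ?_⟩
    show |a| ≤ (Y : ℤ)
    rw [Int.abs_eq_natAbs]
    omega
  have h2 := (card_le_card h1).trans card_image_le
  rw [← Set.ncard_eq_toFinset_card _ hS] at h2
  unfold cn
  refine le_trans (le_of_eq ?_) (Nat.cast_le.2 h2)
  refine congrArg _ (congrArg _ ?_)
  ext n
  simp only [mem_filter]

/-- two to one -/
theorem cn_image_ge (S : Set ℤ) (X : ℕ → Prop) (Y : ℕ) (hX : ∀ a ∈ S, X a.natAbs) :
    ((S ∩ {a | |a| ≤ (Y : ℤ)}).ncard : ℝ) ≤ 2 * cn X Y + 1 := by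
  classical
  have h1 : S ∩ {a | |a| ≤ (Y : ℤ)} ⊆
      ↑(((Icc 1 Y).filter X).image (fun j : ℕ => (j : ℤ)) ∪ ((Icc 1 Y).filter X).image (fun j : ℕ => -(j : ℤ)) ∪ {0}) := by
    rintro a ⟨ha, haY⟩
    have haY' : |a| ≤ (Y : ℤ) := haY
    rw [Int.abs_eq_natAbs] at haY'
    rw [mem_coe, mem_union, mem_union, mem_singleton]
    rcases eq_or_ne a 0 with h0 | h0
    · exact Or.inr h0
    · left
      have hmem : a.natAbs ∈ (Icc 1 Y).filter X := mem_filter.2 ⟨mem_Icc.2 ⟨by omega, by omega⟩, hX a ha⟩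
      rcases Int.natAbs_eq a with h | h
      · exact Or.inl (mem_image.2 ⟨a.natAbs, hmem, h.symm⟩)
      · exact Or.inr (mem_image.2 ⟨a.natAbs, hmem, h.symm⟩)
  have h2 := Set.ncard_le_ncard h1 (Finset.finite_toSet _)
  rw [Set.ncard_coe_finset] at h2
  have h3 := h2.trans ((card_union_le _ _).trans (Nat.add_le_add ((card_union_le _ _).trans
    (Nat.add_le_add card_image_le card_image_le)) le_rfl))
  rw [card_singleton] at h3
  have h4 : ((S ∩ {a | |a| ≤ (Y : ℤ)}).ncard : ℝ) ≤ (((Icc 1 Y).filter X).card : ℝ) + (((Icc 1 Y).filter X).card : ℝ) + 1 := by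
    exact_mod_cast h3
  have e1 : cn X Y = (((Icc 1 Y).filter X).card : ℝ) := by
    unfold cn
    refine congrArg _ (congrArg _ ?_)
    ext n
    simp only [mem_filter]
  rw [e1]
  linarith

theorem facts (d : ℕ) (hm : 1 ≤ m) (hd : 1 ≤ d) (A B D : MvPolynomial (Fin (m + 1)) ℤ)
    (hA : A.IsHomogeneous (2 * d)) (hB : B.IsHomogeneous (2 * d)) (hD : D.IsHomogeneous (2 * d))
    (hs : SmoothBranch A B D) :
    (∀ δ : ℝ, 0 < δ → ∀ᶠ y : ℕ in atTop, cn (Bad A B D) y ≤ δ * y) ∧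
    ∃ c : ℝ, 0 < c ∧ ∀ᶠ y : ℕ in atTop, c * y ≤ cn (Sol A B D) y := by
  classical
  obtain ⟨⟨c, hc, h1⟩, h2⟩ := FanoDoubleCovers.result m d hm hd A B D hA hB hD hs
  have f1 : ∀ H : ℕ, (FanoDoubleCovers.locallySoluble A B D H).Finite := fun H => fin_of fun a ha => ha.1
  have f2 : ∀ H : ℕ, (FanoDoubleCovers.globallySoluble A B D H).Finite := fun H => fin_of fun a ha => ha.1
  have hsub : ∀ H : ℕ, FanoDoubleCovers.globallySoluble A B D H ⊆ FanoDoubleCovers.locallySoluble A B D H := by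
    rintro H a ⟨h3, h4, h5⟩
    exact ⟨h3, h4, FanoDoubleCovers.cast_point ℝ h5, fun p => FanoDoubleCovers.cast_point _ h5⟩
  have hl : ∀ H : ℕ, ((FanoDoubleCovers.locallySoluble A B D H).ncard : ℝ) ≤ 2 * H + 1 := by
    intro H
    have h3 : FanoDoubleCovers.locallySoluble A B D H ⊆ ↑(Icc (-(H : ℤ)) H) := by
      intro a ha
      rw [mem_coe, mem_Icc]
      exact abs_le.1 ha.1
    have h4 := Set.ncard_le_ncard h3 (Finset.finite_toSet _)
    rw [Set.ncard_coe_finset, Int.card_Icc] at h4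
    have h5 : (FanoDoubleCovers.locallySoluble A B D H).ncard ≤ 2 * H + 1 := by omega
    exact_mod_cast h5
  refine ⟨fun δ hδ => ?_, c / 8, by positivity, ?_⟩
  · filter_upwards [h1, h2.eventually_const_lt (show (1 : ℝ) - δ / 3 < 1 by linarith), eventually_ge_atTop 1] with H h3 h4 hH
    have hHr : (1 : ℝ) ≤ H := by exact_mod_cast hH
    have hlp : 0 < ((FanoDoubleCovers.locallySoluble A B D H).ncard : ℝ) := lt_of_lt_of_le (by positivity) h3
    rw [lt_div_iff₀ hlp] at h4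
    have h5 := cn_image {a | Fails A B D a} (Bad A B D) H (by
      rintro j ⟨a, h, h'⟩
      exact ⟨a, h', h⟩) (fin_of fun a ha => ha.2)
    have h6 : ({a | Fails A B D a} ∩ {a | |a| ≤ (H : ℤ)}).ncard + (FanoDoubleCovers.globallySoluble A B D H).ncard ≤
        (FanoDoubleCovers.locallySoluble A B D H).ncard := by
      rw [← Set.ncard_union_eq _ (fin_of fun a ha => ha.2) (f2 H)]
      · refine Set.ncard_le_ncard ?_ (f1 H)
        rintro a (⟨ha, haH⟩ | ha)
        · exact ⟨haH, ha.1, ha.2.1, ha.2.2.1⟩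
        · exact hsub H ha
      · rw [Set.disjoint_left]
        rintro a ⟨ha, -⟩ ⟨-, -, h⟩
        exact ha.2.2.2 h
    have h7 : (({a | Fails A B D a} ∩ {a | |a| ≤ (H : ℤ)}).ncard : ℝ) + ((FanoDoubleCovers.globallySoluble A B D H).ncard : ℝ) ≤
        ((FanoDoubleCovers.locallySoluble A B D H).ncard : ℝ) := by exact_mod_cast h6
    have h8 := hl H
    have h9 : (1 - δ / 3) * ((FanoDoubleCovers.locallySoluble A B D H).ncard : ℝ) =
      ((FanoDoubleCovers.locallySoluble A B D H).ncard : ℝ) - δ / 3 * ((FanoDoubleCovers.locallySoluble A B D H).ncard : ℝ) := by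
      ring
    have h10 : δ / 3 * ((FanoDoubleCovers.locallySoluble A B D H).ncard : ℝ) ≤ δ / 3 * (3 * H) := by
      gcongr
      linarith
    linarith
  · filter_upwards [h1, h2.eventually_const_lt (show (1 / 2 : ℝ) < 1 by norm_num),
      tendsto_natCast_atTop_atTop.eventually_ge_atTop (4 / c)] with H h3 h4 hH
    have hH0 : (0 : ℝ) < H := lt_of_lt_of_le (by positivity) hH
    have hlp : 0 < ((FanoDoubleCovers.locallySoluble A B D H).ncard : ℝ) := lt_of_lt_of_le (by positivity) h3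
    rw [lt_div_iff₀ hlp] at h4
    have h5 := cn_image_ge {a | Squarefree a ∧ HasPoint A B D a ℚ} (Sol A B D) H (fun a ha => ⟨a, rfl, ha⟩)
    have h6 : {a | Squarefree a ∧ HasPoint A B D a ℚ} ∩ {a | |a| ≤ (H : ℤ)} = FanoDoubleCovers.globallySoluble A B D H := by
      ext a
      constructor
      · rintro ⟨h, h'⟩
        exact ⟨h', h⟩
      · rintro ⟨h, h'⟩
        exact ⟨h', h⟩
    rw [h6] at h5
    have h7 : 4 / c * (c / 4) ≤ H * (c / 4) := by gcongr
    have h8 : 4 / c * (c / 4) = 1 := by field_simp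
    linarith

instance countable_mv (m : ℕ) : Countable (MvPolynomial (Fin (m + 1)) ℤ) :=
  Cardinal.mk_le_aleph0_iff.1 (by
    refine (MvPolynomial.cardinalMk_le_max (σ := Fin (m + 1)) (R := ℤ)).trans ?_
    simp)

/-- **Theorem.** -/
theorem result (q : ℕ) (hq : 2 ≤ q) :
    ∃ E : Set ℝ, dimH E ≤ ENNReal.ofReal (q / (q + 1 / ((q : ℝ) * 2 ^ (q - 1)))) ∧ ∀ α : ℝ, 0 < α → α ∉ E →
      ∃ η : ℝ, 0 < η ∧ ∀ (m d : ℕ), 1 ≤ m → 1 ≤ d → ∀ A B D : MvPolynomial (Fin (m + 1)) ℤ,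
      A.IsHomogeneous (2 * d) → B.IsHomogeneous (2 * d) → D.IsHomogeneous (2 * d) → SmoothBranch A B D →
        (∀ (L : ℕ) (ε : ℝ), 0 < ε → ∀ᶠ N : ℕ in atTop, ∀ P : Polynomial ℤ, P.natDegree = q → 0 < P.leadingCoeff →
          (∀ j, |((P.coeff j : ℤ) : ℝ)| ≤ (N : ℝ) ^ η) → (failures A B D L α P N : ℝ) ≤ ε * N) ∧
        ∃ c : ℝ, 0 < c ∧ ∀ᶠ N : ℕ in atTop, ∀ P : Polynomial ℤ, P.natDegree = q → 0 < P.leadingCoeff →
          (∀ j, |((P.coeff j : ℤ) : ℝ)| ≤ (N : ℝ) ^ η) → c * N ≤ (soluble A B D α P N : ℝ) := by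
  classical
  obtain ⟨E, hE, hg⟩ := zero_win (ι := Σ m : ℕ, MvPolynomial (Fin (m + 1)) ℤ × MvPolynomial (Fin (m + 1)) ℤ ×
    MvPolynomial (Fin (m + 1)) ℤ) q hq (fun i => Bad i.2.1 i.2.2.1 i.2.2.2)
  obtain ⟨E', hE', hg'⟩ := low_unif (ι := Σ m : ℕ, MvPolynomial (Fin (m + 1)) ℤ × MvPolynomial (Fin (m + 1)) ℤ ×
    MvPolynomial (Fin (m + 1)) ℤ) q hq (fun i => Sol i.2.1 i.2.2.1 i.2.2.2)
  refine ⟨E ∪ E', ?_, fun α hα hαE => ?_⟩
  · rw [dimH_union]
    exact max_le hE hE'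
  obtain ⟨η, hη, h1⟩ := hg α hα (fun h => hαE (Or.inl h))
  obtain ⟨η', hη', h1'⟩ := hg' α hα (fun h => hαE (Or.inr h))
  refine ⟨min η η', lt_min hη hη', fun m d hm hd A B D hA hB hD hs => ?_⟩
  obtain ⟨g1, c, hc, g2⟩ := facts d hm hd A B D hA hB hD hs
  refine ⟨fun L ε hε => ?_, c / 2, by positivity, ?_⟩
  · filter_upwards [h1 ⟨m, A, B, D⟩ g1 L ε hε, eventually_ge_atTop 1] with N hN hN1
    intro P hdeg hlead hco
    have hN1r : (1 : ℝ) ≤ N := by exact_mod_cast hN1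
    rw [failures_eq]
    exact hN P hdeg hlead fun j => (hco j).trans (Real.rpow_le_rpow_of_exponent_le hN1r (min_le_left _ _))
  · have h2 := h1' ⟨m, A, B, D⟩ c (fun δ hδ => by
      filter_upwards [g2] with y hy
      have h3 : (0 : ℝ) ≤ δ * y := by positivity
      have h4 : (c - δ) * (y : ℝ) = c * y - δ * y := by ring
      show (c - δ) * (y : ℝ) ≤ cn (Sol A B D) y
      linarith) (c / 2) (by positivity)
    filter_upwards [h2, eventually_ge_atTop 1] with N hN hN1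
    intro P hdeg hlead hco
    have hN1r : (1 : ℝ) ≤ N := by exact_mod_cast hN1
    rw [soluble_eq]
    have h3 := hN P hdeg hlead fun j => (hco j).trans (Real.rpow_le_rpow_of_exponent_le hN1r (min_le_right _ _))
    have h4 : (c - c / 2) * (N : ℝ) = c / 2 * N := by ring
    rw [h4] at h3
    exact h3

end Pool.Agent.Results.MP_03ef3d_ag.TwistsAlongRealMultiples
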